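import Pool.Agent.H881Z.Engel.Glob

set_option autoImplicit false

namespace Pool.Agent.Results.MP_2c0ed3_al.AAdNilpotent

open Pool.Agent.H881Z.Engel

/-- Over every field of positive characteristic there is a Lie algebra in which every adjoint
operator is nilpotent, with an element of the locally nilpotent radical whose right multiplication
is not in the locally nilpotent radical of the multiplication algebra. -/
theorem result (F : Type) [Field F] (p : ℕ) (hp : p.Prime) [CharP F p] :
    ∃ (A : Type) (_ : LieRing A) (_ : LieAlgebra F A),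
      (∀ x : A, ∃ n : ℕ, 1 ≤ n ∧ ∀ y : A, (fun z : A => ⁅z, x⁆)^[n] y = 0) ∧
      ∃ a : A, a ∈ lieRadical F A ∧ rightMul F A a ∉ multRadical F A := by
  obtain ⟨A, i1, i2, h1, h2⟩ := strong_counterexample F p hp
  refine ⟨A, i1, i2, fun x => ?_, h2⟩
  have h3 : rightMul F A x = -LieAlgebra.ad F A x := by
    refine LinearMap.ext fun y => ?_
    exact (lie_skew y x).symm
  obtain ⟨n, hn⟩ := (h1 x).neg
  refine ⟨n + 1, by omega, fun y => ?_⟩
  have h4 : (rightMul F A x ^ (n + 1)) y = 0 := by
    rw [h3, pow_succ, hn, zero_mul]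
    rfl
  rw [Module.End.pow_apply] at h4
  exact h4

end Pool.Agent.Results.MP_2c0ed3_al.AAdNilpotent
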