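import Pool.Agent.H881Z.Engel.Weak

set_option autoImplicit false

namespace Pool.Agent.Results.MP_2c0ed3_al.BAllFields

open Pool.Agent.H881Z.Engel

/-- Over every field there is an Engel Lie algebra (the exponent depends on both elements) with an
element of the locally nilpotent radical whose right multiplication is not in the locally nilpotent
radical of the multiplication algebra. -/
theorem result (F : Type) [Field F] :
    ∃ (A : Type) (_ : LieRing A) (_ : LieAlgebra F A),
      (∀ x y : A, ∃ n : ℕ, 1 ≤ n ∧ (fun z : A => ⁅z, x⁆)^[n] y = 0) ∧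
      ∃ a : A, a ∈ lieRadical F A ∧ rightMul F A a ∉ multRadical F A := by
  obtain ⟨A, i1, i2, h1, h2⟩ := weak_counterexample F
  refine ⟨A, i1, i2, fun x y => ?_, h2⟩
  obtain ⟨n, hn, h3⟩ := h1 x y
  rw [Module.End.pow_apply] at h3
  exact ⟨n, hn, h3⟩

end Pool.Agent.Results.MP_2c0ed3_al.BAllFields
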